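import Pool.Agent.EQB.Stmts
import Pool.Agent.Helper51_Equitable.Nice

open Finset SimpleGraph Pool.Agent.Helper51_Equitable

namespace Pool.Agent.EQB.H89

/-- the condition on an exceptional vertex -/
def Ex {V : Type} [Fintype V] (G : SimpleGraph V) (D : Finset (Sym2 V)) (u : V) : Prop :=
  (dg G u = 1 ∧ ∀ y, G.Adj u y → 2 ≤ dg G y) ∨
    ((∃ e ∈ D, u ∈ e) ∧ ((∀ y, G.Adj u y → dg G u ≤ dg G y) ∨ (∀ y, G.Adj u y → dg G y ≤ dg G u)))

/-- the data of one component -/
structure Com {V : Type} [Fintype V] (G : SimpleGraph V) (κ : V → Prop) (c : G.ConnectedComponent)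
    (s : Prop) (U : Finset V) (D : Finset (Sym2 V)) : Prop where
  U1 : ∀ u ∈ U, G.connectedComponentMk u = c ∧ (κ u ↔ s)
  U2 : ∀ u ∈ U, ∀ w ∈ U, u = w
  D1 : D ⊆ edges G
  D2 : ∀ e ∈ D, ¬ G.IsBridge e ∧ ∀ x ∈ e, G.connectedComponentMk x = c
  D3 : ∀ e ∈ D, ∀ f ∈ D, e = f
  ev : ∀ T : Finset V, (∀ v, v ∈ T ↔ G.connectedComponentMk v = c ∧ (κ v ↔ s) ∧ v ∉ U) → Even T.card
  ex : ∀ u ∈ U, Ex G D u

theorem dg_eq_zero {V : Type} [Fintype V] {G : SimpleGraph V} {v : V} (h : dg G v = 0) (w : V) :
    ¬ G.Adj v w := by
  rw [dg_eq_nbrs, Finset.card_eq_zero] at h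
  intro hw
  have := mem_nbrs.2 hw
  rw [h] at this
  exact absurd this (Finset.notMem_empty w)

open Classical in
theorem com (hext : ExtStmt) {V : Type} [Fintype V] (G : SimpleGraph V) (hN : Nice G) (κ : V → Prop)
    (c : G.ConnectedComponent) : ∃ s U D, Com G κ c s U D := by
  obtain ⟨A, hA⟩ : ∃ A : Finset V, ∀ v, v ∈ A ↔ G.connectedComponentMk v = c ∧ κ v :=
    ⟨univ.filter fun v => G.connectedComponentMk v = c ∧ κ v, fun v => by simp⟩
  obtain ⟨B, hB⟩ : ∃ B : Finset V, ∀ v, v ∈ B ↔ G.connectedComponentMk v = c ∧ ¬ κ v :=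
    ⟨univ.filter fun v => G.connectedComponentMk v = c ∧ ¬ κ v, fun v => by simp⟩
  by_cases hAe : Even A.card
  · refine ⟨True, ∅, ∅, by simp, by simp, by simp, by simp, by simp, ?_, by simp⟩
    intro T hT
    have : T = A := by
      ext v
      rw [hT, hA]
      simp
    rw [this]
    exact hAe
  · by_cases hBe : Even B.card
    · refine ⟨False, ∅, ∅, by simp, by simp, by simp, by simp, by simp, ?_, by simp⟩
      intro T hT
      have : T = B := by
        ext v
        rw [hT, hB]
        simp
      rw [this]
      exact hBe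
    · -- both parts are odd: an exceptional vertex `u` with forced edges `D`
      have hmain : ∃ (u : V) (D : Finset (Sym2 V)), G.connectedComponentMk u = c ∧ D ⊆ edges G ∧
          (∀ e ∈ D, ¬ G.IsBridge e ∧ ∀ x ∈ e, G.connectedComponentMk x = c) ∧
          (∀ e ∈ D, ∀ f ∈ D, e = f) ∧ Ex G D u := by
        obtain ⟨a, ha⟩ : A.Nonempty := by
          rw [Finset.nonempty_iff_ne_empty]
          rintro rfl
          exact hAe (by simp)
        obtain ⟨b, hb⟩ : B.Nonempty := by
          rw [Finset.nonempty_iff_ne_empty]
          rintro rfl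
          exact hBe (by simp)
        rw [hA] at ha
        rw [hB] at hb
        by_cases hl : ∃ u, G.connectedComponentMk u = c ∧ dg G u = 1
        · obtain ⟨u, huc, hu1⟩ := hl
          refine ⟨u, ∅, huc, by simp, by simp, by simp, Or.inl ⟨hu1, fun y hy => ?_⟩⟩
          rcases hN.exists_other hy with ⟨w, hw, huw⟩ | ⟨w, hw, hyw⟩
          · exfalso
            rw [dg_eq_nbrs, Finset.card_eq_one] at hu1
            obtain ⟨t, ht⟩ := hu1
            have h1 : w ∈ nbrs G u := mem_nbrs.2 huw
            have h2 : y ∈ nbrs G u := mem_nbrs.2 hy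
            rw [ht, Finset.mem_singleton] at h1 h2
            exact hw (h1.trans h2.symm)
          · rw [dg_eq_nbrs]
            have : ({u, w} : Finset V) ⊆ nbrs G y := by
              intro z hz
              rcases Finset.mem_insert.1 hz with rfl | hz
              · exact mem_nbrs.2 hy.symm
              · rw [Finset.mem_singleton.1 hz]
                exact mem_nbrs.2 hyw
            have h3 := Finset.card_le_card this
            rw [Finset.card_pair hw.symm] at h3
            exact h3
        · have hdeg : ∀ v, G.Reachable a v → 2 ≤ dg G v := by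
            intro v hv
            have hvc : G.connectedComponentMk v = c := by
              rw [← ha.1]
              exact ConnectedComponent.eq.2 hv.symm
            have h1 : dg G v ≠ 1 := fun h => hl ⟨v, hvc, h⟩
            have h0 : dg G v ≠ 0 := by
              intro h
              have hiso : ∀ w, G.Reachable v w → w = v := by
                rintro w ⟨p⟩
                cases p with
                | nil => rfl
                | cons h' _ => exact absurd h' (dg_eq_zero h _)
              have h2 : a = v := hiso a (ConnectedComponent.eq.1 (hvc.trans ha.1.symm))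
              have h3 : b = v := hiso b (ConnectedComponent.eq.1 (hvc.trans hb.1.symm))
              rw [h2] at ha
              rw [h3] at hb
              exact hb.2 ha.2
            omega
          obtain ⟨u, hau, ⟨y, huy, hnb⟩, hloc⟩ := hext V G a hdeg
          have huc : G.connectedComponentMk u = c := by
            rw [← ha.1]
            exact ConnectedComponent.eq.2 hau.symm
          refine ⟨u, {s(u, y)}, huc, ?_, ?_, ?_, Or.inr ⟨⟨s(u, y), Finset.mem_singleton_self _,
            Sym2.mem_mk_left u y⟩, hloc⟩⟩
          · intro e he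
            rw [Finset.mem_singleton.1 he]
            exact mem_edges.2 huy
          · intro e he
            rw [Finset.mem_singleton.1 he]
            refine ⟨hnb, fun x hx => ?_⟩
            rcases Sym2.mem_iff.1 hx with rfl | rfl
            · exact huc
            · rw [← huc]
              exact ConnectedComponent.eq.2 huy.symm.reachable
          · intro e he f hf
            rw [Finset.mem_singleton.1 he, Finset.mem_singleton.1 hf]
      obtain ⟨u, D, huc, hD1, hD2, hD3, hex⟩ := hmain
      refine ⟨κ u, {u}, D, ?_, ?_, hD1, hD2, hD3, ?_, ?_⟩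
      · intro w hw
        rw [Finset.mem_singleton.1 hw]
        exact ⟨huc, Iff.rfl⟩
      · intro w hw z hz
        rw [Finset.mem_singleton.1 hw, Finset.mem_singleton.1 hz]
      · intro T hT
        by_cases hk : κ u
        · have huA : u ∈ A := (hA u).2 ⟨huc, hk⟩
          have : T = A.erase u := by
            ext v
            rw [hT, Finset.mem_erase, hA, Finset.mem_singleton]
            constructor
            · rintro ⟨h1, h2, h3⟩
              exact ⟨h3, h1, h2.2 hk⟩
            · rintro ⟨h1, h2, h3⟩
              exact ⟨h2, ⟨fun _ => hk, fun _ => h3⟩, h1⟩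
          rw [this, Finset.card_erase_of_mem huA]
          rw [Nat.not_even_iff_odd] at hAe
          exact Nat.Odd.sub_odd hAe odd_one
        · have huB : u ∈ B := (hB u).2 ⟨huc, hk⟩
          have : T = B.erase u := by
            ext v
            rw [hT, Finset.mem_erase, hB, Finset.mem_singleton]
            constructor
            · rintro ⟨h1, h2, h3⟩
              exact ⟨h3, h1, fun h => hk (h2.1 h)⟩
            · rintro ⟨h1, h2, h3⟩
              exact ⟨h2, ⟨fun h => absurd h h3, fun h => absurd h hk⟩, h1⟩
          rw [this, Finset.card_erase_of_mem huB]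
          rw [Nat.not_even_iff_odd] at hBe
          exact Nat.Odd.sub_odd hBe odd_one
      · intro w hw
        rw [Finset.mem_singleton.1 hw]
        exact hex

open Classical in
theorem dat (hext : ExtStmt) : DatStmt := by
  intro V _ G hN hbip
  obtain ⟨col⟩ := hbip
  choose s U D hC using fun c => com hext G hN (fun v => col v = 0) c
  have hmem : ∀ v, v ∈ (univ.filter fun v => v ∈ U (G.connectedComponentMk v)) ↔
      v ∈ U (G.connectedComponentMk v) := fun v => by simp
  have hmemD : ∀ e, e ∈ ((edges G).filter fun e => ∃ c, e ∈ D c) ↔ ∃ c, e ∈ D c := by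
    intro e
    rw [Finset.mem_filter]
    constructor
    · exact fun h => h.2
    · rintro ⟨c, hc⟩
      exact ⟨(hC c).D1 hc, c, hc⟩
  refine ⟨fun v => (col v = 0 ↔ s (G.connectedComponentMk v)),
    univ.filter fun v => v ∈ U (G.connectedComponentMk v),
    (edges G).filter fun e => ∃ c, e ∈ D c, ?_⟩
  constructor
  · intro x y hxy
    have h1 : G.connectedComponentMk x = G.connectedComponentMk y :=
      ConnectedComponent.eq.2 hxy.reachable
    have h2 : col x ≠ col y := col.valid hxy
    have h3 : col x = 0 ↔ ¬ (col y = 0) := by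
      constructor
      · intro hx hy
        exact h2 (hx.trans hy.symm)
      · intro hy
        have e1 : (col y).val ≠ 0 := fun h => hy (Fin.ext h)
        have e2 : (col x).val ≠ (col y).val := fun h => h2 (Fin.ext h)
        have e3 := (col x).isLt
        have e4 := (col y).isLt
        exact Fin.ext (by show (col x).val = 0; omega)
    rw [h1, h3]
    tauto
  · intro u hu
    exact ((hC _).U1 u ((hmem u).1 hu)).2
  · intro u hu w hw huw
    have h1 : G.connectedComponentMk u = G.connectedComponentMk w := ConnectedComponent.eq.2 huw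
    have h2 := (hmem u).1 hu
    have h3 := (hmem w).1 hw
    rw [h1] at h2
    exact (hC _).U2 u h2 w h3
  · exact Finset.filter_subset _ _
  · intro e he
    obtain ⟨c, hc⟩ := (hmemD e).1 he
    exact ((hC c).D2 e hc).1
  · intro e he f hf x hx y hy hxy
    obtain ⟨c, hc⟩ := (hmemD e).1 he
    obtain ⟨c', hc'⟩ := (hmemD f).1 hf
    have h1 := ((hC c).D2 e hc).2 x hx
    have h2 := ((hC c').D2 f hc').2 y hy
    have h3 : c = c' := by
      rw [← h1, ← h2]
      exact ConnectedComponent.eq.2 hxy
    subst h3
    exact (hC c).D3 e hc f hc'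
  · intro T hT r
    refine (hC (G.connectedComponentMk r)).ev _ fun v => ?_
    rw [mem_inC, hT]
    constructor
    · rintro ⟨⟨h1, h2⟩, h3⟩
      have h4 : G.connectedComponentMk v = G.connectedComponentMk r :=
        ConnectedComponent.eq.2 h3.symm
      rw [hmem] at h2
      rw [h4] at h1 h2
      exact ⟨h4, h1, h2⟩
    · rintro ⟨h4, h1, h2⟩
      rw [hmem, h4]
      exact ⟨⟨h1, h2⟩, (ConnectedComponent.eq.1 h4).symm⟩
  · intro u hu
    have h1 := (hC _).ex u ((hmem u).1 hu)
    rcases h1 with h1 | ⟨⟨e, he, hue⟩, h2⟩
    · exact Or.inl h1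
    · exact Or.inr ⟨⟨e, (hmemD e).2 ⟨_, he⟩, hue⟩, h2⟩

end Pool.Agent.EQB.H89
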