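import Pool.Agent.Helper89_EQB.TJN

open Finset SimpleGraph Pool.Agent.Helper51_Equitable

namespace Pool.Agent.EQB.H89

theorem num1 : ∀ L : ℕ, 5 ≤ L → 3 * (L * (L + 1)) ≤ 4 * 2 ^ L ∧ (L + 1) * (L + 1) ≤ 2 * 2 ^ L := by
  intro L hL
  induction L, hL using Nat.le_induction with
  | base => norm_num
  | succ L hL ih =>
    obtain ⟨h1, h2⟩ := ih
    rw [pow_succ]
    constructor
    · nlinarith
    · nlinarith

theorem num2 {n : ℕ} (hn : 32 ≤ n) :
    3 * ((Nat.log 2 n + 1) * (Nat.log 2 n + 1)) ≤ 4 * n + 3 * (Nat.log 2 n + 1) ∧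
      (Nat.log 2 n + 1) * (Nat.log 2 n + 1) ≤ 2 * n := by
  have h5 : 5 ≤ Nat.log 2 n := by
    have : Nat.log 2 32 ≤ Nat.log 2 n := Nat.log_mono_right hn
    have h32 : Nat.log 2 32 = 5 := by
      rw [show (32 : ℕ) = 2 ^ 5 by norm_num]
      exact Nat.log_pow (by norm_num) 5
    omega
  have hp : 2 ^ Nat.log 2 n ≤ n := Nat.pow_log_le_self 2 (by omega)
  obtain ⟨h1, h2⟩ := num1 _ h5
  generalize Nat.log 2 n = L at *
  constructor
  · nlinarith
  · nlinarith

open Classical in
/-- an edge set of `G` can be replaced by an edge set of `F` with the same odd vertices -/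
theorem pq {V : Type} [Fintype V] {G F : SimpleGraph V} (hr : F.Reachable = G.Reachable)
    (P : Finset (Sym2 V)) (hP : P ⊆ edges G) :
    ∃ Q ⊆ edges F, ∀ v, Odd (dJ Q v) ↔ Odd (dJ P v) := by
  induction P using Finset.induction_on with
  | empty => exact ⟨∅, Finset.empty_subset _, fun v => Iff.rfl⟩
  | insert e P he ih =>
    obtain ⟨Q, hQ, hQv⟩ := ih (fun x hx => hP (Finset.mem_insert_of_mem hx))
    have heG := mem_edges.1 (hP (Finset.mem_insert_self e P))
    induction e using Sym2.ind with
    | _ a b =>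
      have hab : G.Adj a b := heG
      have hF : F.Reachable a b := by
        rw [hr]
        exact hab.reachable
      obtain ⟨p⟩ := hF
      obtain ⟨W, hW, hWv⟩ := walk_join F p
      refine ⟨symmDiff Q W, ?_, fun v => ?_⟩
      · intro x hx
        rw [Finset.mem_symmDiff] at hx
        rcases hx with ⟨h, _⟩ | ⟨h, _⟩
        · exact hQ h
        · exact hW h
      · have h1 : symmDiff P {s(a, b)} = insert s(a, b) P := by
          ext x
          rw [Finset.mem_symmDiff, Finset.mem_singleton, Finset.mem_insert]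
          constructor
          · rintro (⟨h, _⟩ | ⟨h, _⟩)
            · exact Or.inr h
            · exact Or.inl h
          · rintro (rfl | h)
            · exact Or.inr ⟨rfl, he⟩
            · refine Or.inl ⟨h, ?_⟩
              rintro rfl
              exact he h
        have h2 : Odd (dJ {s(a, b)} v) ↔ (v = a ↔ v ≠ b) := by
          rw [dJ_singleton]
          have hne : a ≠ b := hab.ne
          by_cases hm : v ∈ s(a, b)
          · rw [if_pos hm]
            refine ⟨fun _ => ?_, fun _ => odd_one⟩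
            rcases Sym2.mem_iff.1 hm with rfl | rfl
            · exact ⟨fun _ => hne, fun _ => rfl⟩
            · exact ⟨fun h => absurd h.symm hne, fun h => absurd rfl h⟩
          · rw [if_neg hm]
            refine ⟨fun h => absurd h (by decide), fun h => ?_⟩
            rw [Sym2.mem_iff, not_or] at hm
            exact absurd (h.2 hm.2) hm.1
        rw [dJ_symmDiff, hQv, hWv, ← h1, dJ_symmDiff, h2]

/-- an edge set of a bipartite graph which is even at one side has an even number of edges -/
theorem even_card {V : Type} [Fintype V] {J : Finset (Sym2 V)} {X : V → Prop}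
    (h : ∀ x y, s(x, y) ∈ J → (X x ↔ ¬ X y)) (he : ∀ y, ¬ X y → Even (dJ J y)) : Even J.card := by
  classical
  rw [← sum_dJ_side J X h]
  exact Finset.even_sum _ fun y hy => he y (Finset.mem_filter.1 hy).2

theorem edge_bound {V : Type} [Fintype V] {G : SimpleGraph V} {X : V → Prop}
    (h : ∀ x y, G.Adj x y → (X x ↔ ¬ X y)) : 4 * (edges G).card ≤ Fintype.card V ^ 2 := by
  classical
  have h1 := sum_dJ_side (edges G) X (fun x y hxy => h x y (mem_edges.1 hxy))
  have h2 : ∀ y ∈ univ.filter (fun y => ¬ X y), dJ (edges G) y ≤ (univ.filter X).card := by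
    intro y hy
    have hy' : ¬ X y := (Finset.mem_filter.1 hy).2
    have h3 : dJ (edges G) y = (nbrs G y).card := dg_eq_nbrs G y
    rw [h3]
    refine Finset.card_le_card fun z hz => ?_
    have hz' := mem_nbrs.1 hz
    exact Finset.mem_filter.2 ⟨Finset.mem_univ _, (h z y hz'.symm).2 hy'⟩
  have h4 := Finset.sum_le_card_nsmul _ _ _ h2
  rw [h1, smul_eq_mul] at h4
  have h5 : (univ.filter X).card + (univ.filter (fun y => ¬ X y)).card = Fintype.card V := by
    rw [Finset.card_filter_add_card_filter_not, Finset.card_univ]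
  nlinarith [sq_nonneg ((univ.filter X).card - (univ.filter (fun y => ¬ X y)).card : ℤ),
    Nat.zero_le (univ.filter X).card, four_mul_le_pow_two_add (univ.filter X).card
      (univ.filter (fun y => ¬ X y)).card]

open Classical in
theorem exj (tjn : TjnStmt) (fam : FamStmt) (gre : GreStmt) : ExjStmt := by
  intro V _ _ G F X T D τ hbip hTX hFG hFr hDG hDF hTe hFc hDc hm hτe hτ1 hτ2
  obtain ⟨n, hn⟩ : ∃ n, n = Fintype.card V := ⟨_, rfl⟩
  obtain ⟨a, ha⟩ : ∃ a, a = Nat.log 2 n + 1 := ⟨_, rfl⟩
  have hnpos : 0 < n := by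
    rw [hn]
    exact Fintype.card_pos
  have heb := edge_bound hbip
  rw [← hn] at hFc hDc hm heb
  have hn32 : 32 ≤ n := by nlinarith
  obtain ⟨hnum1, hnum2⟩ := num2 hn32
  rw [← ha] at hnum1 hnum2
  have hapos : 1 ≤ a := by omega
  -- the family
  have hE'loop : ∀ e ∈ edges G \ (edges F ∪ D), ¬ e.IsDiag := fun e he =>
    G.not_isDiag_of_mem_edgeSet (mem_edges.1 (Finset.mem_sdiff.1 he).1)
  obtain ⟨r, Z, hZ, hZd, hZs⟩ := fam V (edges G \ (edges F ∪ D)) hE'loop
  rw [← hn, ← ha] at hZ
  rw [← hn] at hZs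
  have hbipE : ∀ J ⊆ edges G, ∀ x y, s(x, y) ∈ J → (X x ↔ ¬ X y) := fun J hJ x y hxy =>
    hbip x y (mem_edges.1 (hJ hxy))
  have hZG : ∀ i < r, Z i ⊆ edges G := fun i hi => (hZ i hi).1.trans Finset.sdiff_subset
  have hZev : ∀ i < r, Even (Z i).card := fun i hi =>
    even_card (hbipE _ (hZG i hi)) fun y _ => (hZ i hi).2.2.1 y
  choose! k hk using hZev
  have hk1 : ∀ i < r, 1 ≤ k i := by
    intro i hi
    have h1 := Finset.card_pos.2 (hZ i hi).2.1
    have h2 := hk i hi
    omega
  have hka : ∀ i < r, k i ≤ a := by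
    intro i hi
    have h1 := (hZ i hi).2.2.2
    have h2 := hk i hi
    omega
  -- cardinalities
  have hFD : Disjoint (edges F) D := hDF.symm
  have hFsub : edges F ⊆ edges G := fun e he => mem_edges.2 (edgeSet_mono hFG (mem_edges.1 he))
  have hEc : (edges G \ (edges F ∪ D)).card + ((edges F).card + D.card) = (edges G).card := by
    rw [← Finset.card_union_of_disjoint hFD]
    exact Finset.card_sdiff_add_card_eq_card (Finset.union_subset hFsub hDG)
  obtain ⟨R, hR⟩ : ∃ R, R = (edges G \ (edges F ∪ D)) \ (range r).biUnion Z := ⟨_, rfl⟩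
  have hUsub : (range r).biUnion Z ⊆ edges G \ (edges F ∪ D) := by
    intro e he
    obtain ⟨i, hi, hei⟩ := Finset.mem_biUnion.1 he
    exact (hZ i (Finset.mem_range.1 hi)).1 hei
  have hUc : ((range r).biUnion Z).card = ∑ i ∈ range r, (Z i).card :=
    Finset.card_biUnion fun i hi j hj hij =>
      hZd i (Finset.mem_range.1 hi) j (Finset.mem_range.1 hj) hij
  have hRc : R.card + ∑ i ∈ range r, (Z i).card = (edges G \ (edges F ∪ D)).card := by
    rw [hR, ← hUc]
    exact Finset.card_sdiff_add_card_eq_card hUsub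
  -- enough members
  have har : a ≤ r := by
    by_contra hc
    have h1 : ∑ i ∈ range r, (Z i).card ≤ ∑ _i ∈ range r, 2 * a :=
      Finset.sum_le_sum fun i hi => (hZ i (Finset.mem_range.1 hi)).2.2.2
    rw [Finset.sum_const, Finset.card_range, smul_eq_mul] at h1
    have h2 : r * (2 * a) ≤ a * (2 * a) := Nat.mul_le_mul_right _ (by omega)
    have h3 : a * (2 * a) = 2 * (a * a) := by ring
    omega
  -- the halves
  have hAex : ∀ i < r, ∃ A ⊆ Z i, A.card = k i - 1 := by
    intro i hi
    exact Finset.exists_subset_card_eq (by have := hk i hi; omega)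
  choose! A hAZ hAc using hAex
  obtain ⟨B0, hB0⟩ : ∃ B0 : ℕ → Finset (Sym2 V), ∀ i, B0 i = if i < a then A i else ∅ :=
    ⟨_, fun _ => rfl⟩
  have hB0Z : ∀ i < r, B0 i ⊆ Z i := by
    intro i hi
    rw [hB0]
    split_ifs
    · exact hAZ i hi
    · exact Finset.empty_subset _
  -- the forced part and the tree part
  have hRG : R ⊆ edges G := by
    rw [hR]
    exact Finset.sdiff_subset.trans Finset.sdiff_subset
  have hB0U : (range r).biUnion B0 ⊆ (range r).biUnion Z := by
    intro e he
    obtain ⟨i, hi, hei⟩ := Finset.mem_biUnion.1 he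
    exact Finset.mem_biUnion.2 ⟨i, hi, hB0Z i (Finset.mem_range.1 hi) hei⟩
  obtain ⟨Q, hQ, hQv⟩ := pq hFr ((D ∪ R) ∪ (range r).biUnion B0)
    (Finset.union_subset (Finset.union_subset hDG hRG)
      (hB0U.trans (hUsub.trans Finset.sdiff_subset)))
  have hTe' : ∀ r, Even (inC F T r).card := by
    intro x
    have : inC F T x = inC G T x := by
      ext v
      rw [mem_inC, mem_inC, hFr]
    rw [this]
    exact hTe x
  obtain ⟨JT, hJT, hJTv⟩ := tjn V F T hTe'
  obtain ⟨J0, hJ0def⟩ : ∃ J0, J0 = symmDiff JT Q := ⟨_, rfl⟩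
  have hJ0 : J0 ⊆ edges F := by
    rw [hJ0def]
    intro x hx
    rw [Finset.mem_symmDiff] at hx
    rcases hx with ⟨h, _⟩ | ⟨h, _⟩
    · exact hJT h
    · exact hQ h
  -- disjointness
  have hDR : Disjoint D R := by
    rw [Finset.disjoint_left]
    intro e h1 h2
    rw [hR, Finset.mem_sdiff, Finset.mem_sdiff] at h2
    exact h2.1.2 (Finset.mem_union_right _ h1)
  have hJ0W : Disjoint J0 (D ∪ R) := by
    rw [Finset.disjoint_left]
    intro e h1 h2
    rcases Finset.mem_union.1 h2 with h2 | h2
    · exact Finset.disjoint_left.1 hFD (hJ0 h1) h2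
    · rw [hR, Finset.mem_sdiff, Finset.mem_sdiff] at h2
      exact h2.1.2 (Finset.mem_union_left _ (hJ0 h1))
  have hJWU : Disjoint (J0 ∪ (D ∪ R)) ((range r).biUnion Z) := by
    rw [Finset.disjoint_left]
    intro e h1 h2
    have h3 := hUsub h2
    rw [Finset.mem_sdiff, Finset.mem_union, not_or] at h3
    rcases Finset.mem_union.1 h1 with h1 | h1
    · exact h3.2.1 (hJ0 h1)
    · rcases Finset.mem_union.1 h1 with h1 | h1
      · exact h3.2.2 h1
      · rw [hR, Finset.mem_sdiff] at h1
        exact h1.2 h2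
  -- the general member
  have hgen : ∀ B : ℕ → Finset (Sym2 V), (∀ i < r, B i ⊆ Z i) →
      (∀ i < r, ∀ v, (Odd (dJ (B i) v) ↔ Odd (dJ (B0 i) v))) →
      ∃ J ⊆ edges G, D ⊆ J ∧ J.card = J0.card + (D.card + R.card) + ∑ i ∈ range r, (B i).card ∧
        ∀ v, Odd (dJ J v) ↔ v ∈ T := by
    intro B hBZ hBp
    have hBU : (range r).biUnion B ⊆ (range r).biUnion Z := by
      intro e he
      obtain ⟨i, hi, hei⟩ := Finset.mem_biUnion.1 he
      exact Finset.mem_biUnion.2 ⟨i, hi, hBZ i (Finset.mem_range.1 hi) hei⟩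
    have hd : ∀ C : ℕ → Finset (Sym2 V), (∀ i < r, C i ⊆ Z i) →
        ∀ i ∈ range r, ∀ j ∈ range r, i ≠ j → Disjoint (C i) (C j) := by
      intro C hC i hi j hj hij
      exact Finset.disjoint_of_subset_left (hC i (Finset.mem_range.1 hi))
        (Finset.disjoint_of_subset_right (hC j (Finset.mem_range.1 hj))
          (hZd i (Finset.mem_range.1 hi) j (Finset.mem_range.1 hj) hij))
    have hdis : Disjoint (J0 ∪ (D ∪ R)) ((range r).biUnion B) :=
      Finset.disjoint_of_subset_right hBU hJWU
    refine ⟨(J0 ∪ (D ∪ R)) ∪ (range r).biUnion B, ?_, ?_, ?_, ?_⟩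
    · refine Finset.union_subset (Finset.union_subset (hJ0.trans hFsub)
        (Finset.union_subset hDG hRG)) (hBU.trans (hUsub.trans Finset.sdiff_subset))
    · exact fun e he => Finset.mem_union_left _ (Finset.mem_union_right _
        (Finset.mem_union_left _ he))
    · rw [Finset.card_union_of_disjoint hdis, Finset.card_union_of_disjoint hJ0W,
        Finset.card_union_of_disjoint hDR, Finset.card_biUnion (hd B hBZ)]
    · intro v
      rw [dJ_union hdis, dJ_union hJ0W, dJ_biUnion _ _ (hd B hBZ)]
      have h1 : Odd (dJ J0 v) ↔ (v ∈ T ↔ ¬ Odd (dJ Q v)) := by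
        rw [hJ0def, dJ_symmDiff, hJTv]
      have hdis0 : Disjoint (D ∪ R) ((range r).biUnion B0) :=
        Finset.disjoint_of_subset_left Finset.subset_union_right
          (Finset.disjoint_of_subset_right hB0U hJWU)
      have h2 := hQv v
      rw [dJ_union hdis0, dJ_biUnion _ _ (hd B0 hB0Z)] at h2
      have h3 : (∑ i ∈ range r, dJ (B i) v) % 2 = (∑ i ∈ range r, dJ (B0 i) v) % 2 := by
        rw [Finset.sum_nat_mod, Finset.sum_nat_mod (range r) 2 (fun i => dJ (B0 i) v)]
        congr 1
        refine Finset.sum_congr rfl fun i hi => ?_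
        have h4 := hBp i (Finset.mem_range.1 hi) v
        rw [Nat.odd_iff, Nat.odd_iff] at h4
        omega
      rw [h2] at h1
      generalize (∑ i ∈ range r, dJ (B i) v) = x at *
      generalize (∑ i ∈ range r, dJ (B0 i) v) = y at *
      generalize dJ J0 v = z at *
      generalize dJ (D ∪ R) v = w at *
      rw [Nat.odd_iff, Nat.odd_iff] at h1
      rw [Nat.odd_iff]
      by_cases hv : v ∈ T
      · simp only [hv, true_iff] at h1
        simp only [hv, iff_true]
        omega
      · simp only [hv, false_iff, not_not] at h1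
        simp only [hv, iff_false]
        omega
  -- the base is even
  have hbase : Even (J0.card + (D.card + R.card) + ∑ i ∈ range r, (B0 i).card) := by
    obtain ⟨J, hJG, _, hJc, hJv⟩ := hgen B0 hB0Z (fun _ _ _ => Iff.rfl)
    rw [← hJc]
    refine even_card (hbipE J hJG) fun y hy => ?_
    rw [← Nat.not_odd_iff_even, hJv]
    exact fun h => hy (hTX y h)
  -- sums
  have hrsplit : r = a + (r - a) := by omega
  have hsumZ : ∑ i ∈ range r, (Z i).card =
      2 * ∑ i ∈ range a, k i + 2 * ∑ i ∈ range (r - a), k (a + i) := by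
    rw [hrsplit, Finset.sum_range_add]
    congr 1
    · rw [Finset.mul_sum]
      refine Finset.sum_congr rfl fun i hi => ?_
      have := hk i (by have := Finset.mem_range.1 hi; omega)
      omega
    · rw [Finset.mul_sum]
      have e1 : a + (r - a) - a = r - a := by omega
      rw [e1]
      refine Finset.sum_congr rfl fun i hi => ?_
      have := hk (a + i) (by have := Finset.mem_range.1 hi; omega)
      omega
  have hsumB0 : ∑ i ∈ range r, (B0 i).card + a = ∑ i ∈ range a, k i := by
    rw [hrsplit, Finset.sum_range_add]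
    have e2 : ∑ i ∈ range (r - a), (B0 (a + i)).card = 0 := by
      refine Finset.sum_eq_zero fun i _ => ?_
      rw [hB0, if_neg (by omega), Finset.card_empty]
    rw [e2, add_zero]
    have e3 : ∑ i ∈ range a, ((B0 i).card + 1) = ∑ i ∈ range a, k i := by
      refine Finset.sum_congr rfl fun i hi => ?_
      have hi' := Finset.mem_range.1 hi
      rw [hB0, if_pos hi', hAc i (by omega)]
      have := hk1 i (by omega)
      omega
    rw [Finset.sum_add_distrib, Finset.sum_const, Finset.card_range, smul_eq_mul, mul_one] at e3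
    exact e3
  have hsumka : ∑ i ∈ range a, k i ≤ a * a := by
    have h1 : ∑ i ∈ range a, k i ≤ ∑ _i ∈ range a, a :=
      Finset.sum_le_sum fun i hi => hka i (by have := Finset.mem_range.1 hi; omega)
    rwa [Finset.sum_const, Finset.card_range, smul_eq_mul] at h1
  have hJ0c : J0.card ≤ n := (Finset.card_le_card hJ0).trans hFc
  obtain ⟨b, hb⟩ := hbase
  obtain ⟨t0, ht0⟩ := hτe
  have hb1 : b ≤ t0 := by omega
  have hb2 : t0 - b ≤ ∑ i ∈ range (r - a), k (a + i) + a := by omega
  obtain ⟨K, hK, t, ht, hKt⟩ := gre a (r - a) (t0 - b) (fun i => k (a + i))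
    (fun i hi => hka (a + i) (by omega)) hb2
  -- the final choice
  obtain ⟨B, hB⟩ : ∃ B : ℕ → Finset (Sym2 V), ∀ i, B i =
      if i < t then Z i \ A i else if i < a then A i else if i - a ∈ K then Z i else ∅ :=
    ⟨_, fun _ => rfl⟩
  have hBZ : ∀ i < r, B i ⊆ Z i := by
    intro i hi
    rw [hB]
    split_ifs
    · exact Finset.sdiff_subset
    · exact hAZ i hi
    · exact Finset.Subset.refl _
    · exact Finset.empty_subset _
  have hBp : ∀ i < r, ∀ v, (Odd (dJ (B i) v) ↔ Odd (dJ (B0 i) v)) := by
    intro i hi v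
    have hev := (hZ i hi).2.2.1 v
    rw [hB, hB0]
    by_cases h1 : i < t
    · rw [if_pos h1, if_pos (by omega)]
      have h2 := dJ_sdiff (hAZ i hi) v
      rw [Nat.odd_iff, Nat.odd_iff]
      rw [Nat.even_iff] at hev
      omega
    · rw [if_neg h1]
      by_cases h2 : i < a
      · rw [if_pos h2, if_pos h2]
      · rw [if_neg h2, if_neg h2]
        by_cases h3 : i - a ∈ K
        · rw [if_pos h3, dJ_empty]
          rw [Nat.odd_iff, Nat.odd_iff]
          rw [Nat.even_iff] at hev
          omega
        · rw [if_neg h3]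
  have hsumB : ∑ i ∈ range r, (B i).card =
      ∑ i ∈ range r, (B0 i).card + 2 * t + 2 * ∑ i ∈ K, k (a + i) := by
    have e1 : ∑ i ∈ range r, (B0 i).card = ∑ i ∈ range a, (A i).card := by
      rw [hrsplit, Finset.sum_range_add]
      have e2 : ∑ i ∈ range (r - a), (B0 (a + i)).card = 0 := by
        refine Finset.sum_eq_zero fun i _ => ?_
        rw [hB0, if_neg (by omega), Finset.card_empty]
      rw [e2, add_zero]
      refine Finset.sum_congr rfl fun i hi => ?_
      rw [hB0, if_pos (Finset.mem_range.1 hi)]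
    have e3 : ∑ i ∈ range r, (B i).card =
        ∑ i ∈ range a, (B i).card + ∑ i ∈ range (r - a), (B (a + i)).card := by
      conv_lhs => rw [hrsplit]
      rw [Finset.sum_range_add]
    have e4 : ∑ i ∈ range (r - a), (B (a + i)).card = 2 * ∑ i ∈ K, k (a + i) := by
      have e5 : ∀ i ∈ range (r - a), (B (a + i)).card = if i ∈ K then 2 * k (a + i) else 0 := by
        intro i hi
        rw [hB, if_neg (by omega), if_neg (by omega), Nat.add_sub_cancel_left]
        have hk' := hk (a + i) (by have := Finset.mem_range.1 hi; omega)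
        by_cases h : i ∈ K
        · rw [if_pos h, if_pos h]
          omega
        · rw [if_neg h, if_neg h, Finset.card_empty]
      rw [Finset.sum_congr rfl e5, ← Finset.sum_filter, Finset.mul_sum]
      refine Finset.sum_congr ?_ fun _ _ => rfl
      ext i
      rw [Finset.mem_filter]
      exact ⟨fun h => h.2, fun h => ⟨hK h, h⟩⟩
    have e6 : ∑ i ∈ range a, (B i).card = ∑ i ∈ range a, (A i).card + 2 * t := by
      have e7 : ∀ i ∈ range a, (B i).card = (A i).card + if i < t then 2 else 0 := by
        intro i hi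
        have hi' := Finset.mem_range.1 hi
        have hir : i < r := by omega
        rw [hB]
        by_cases h : i < t
        · rw [if_pos h, if_pos h]
          have h1 := Finset.card_sdiff_add_card_eq_card (hAZ i hir)
          have h2 := hk i hir
          have h3 := hAc i hir
          have h4 := hk1 i hir
          omega
        · rw [if_neg h, if_neg h, if_pos hi', add_zero]
      rw [Finset.sum_congr rfl e7, Finset.sum_add_distrib, ← Finset.sum_filter]
      congr 1
      have e8 : (range a).filter (fun i => i < t) = range t := by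
        ext i
        rw [Finset.mem_filter, Finset.mem_range, Finset.mem_range]
        omega
      rw [e8, Finset.sum_const, Finset.card_range, smul_eq_mul, mul_comm]
    rw [e3, e4, e6, e1]
  obtain ⟨J, hJG, hDJ, hJc, hJv⟩ := hgen B hBZ hBp
  refine ⟨J, hJG, hDJ, ?_, hJv⟩
  rw [hJc, hsumB]
  omega

end Pool.Agent.EQB.H89
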