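import Pool.Agent.EQB.Stmts

open Finset SimpleGraph Pool.Agent.Helper51_Equitable

namespace Pool.Agent.EQB.H89

theorem mem_nbrs_iff {V : Type} [Fintype V] (G : SimpleGraph V) (v w : V) :
    w ∈ nbrs G v ↔ G.Adj v w := mem_nbrs

/-- a vertex of degree at least 2 has a neighbour different from a given vertex -/
theorem exists_adj_ne {V : Type} [Fintype V] (G : SimpleGraph V) {v : V} (h : 2 ≤ dg G v) (w : V) :
    ∃ x, G.Adj v x ∧ x ≠ w := by
  rw [dg_eq_nbrs] at h
  obtain ⟨x, hx, hne⟩ := Finset.exists_mem_ne (s := nbrs G v) (by omega) w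
  exact ⟨x, mem_nbrs.1 hx, hne⟩

structure Valid {V : Type} [Fintype V] (G : SimpleGraph V) (r : V) (S : Finset V) (b : V) : Prop where
  mem : b ∈ S
  reach : ∀ x ∈ S, G.Reachable r x
  two : ∃ x ∈ S, x ≠ b
  closed : ∀ x ∈ S, x ≠ b → ∀ y, G.Adj x y → y ∈ S

open Classical in
theorem smaller {V : Type} [Fintype V] (G : SimpleGraph V) (r : V)
    (hdeg : ∀ v, G.Reachable r v → 2 ≤ dg G v) {S : Finset V} {b : V} (hS : Valid G r S b)
    {u v : V} (hu : u ∈ S) (hv : v ∈ S) (hbr : ¬ (G.deleteEdges {s(u, v)}).Reachable u v)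
    (hb : ¬ (G.deleteEdges {s(u, v)}).Reachable u b) :
    ∃ S' b', Valid G r S' b' ∧ S'.card < S.card := by
  have hmem : ∀ w, w ∈ (univ.filter fun w => (G.deleteEdges {s(u, v)}).Reachable u w) ↔
      (G.deleteEdges {s(u, v)}).Reachable u w := fun w => by simp
  refine ⟨univ.filter fun w => (G.deleteEdges {s(u, v)}).Reachable u w, u, ⟨?_, ?_, ?_, ?_⟩, ?_⟩
  · exact (hmem u).2 (Reachable.refl u)
  · intro x hx
    exact (hS.reach u hu).trans (((hmem x).1 hx).mono (deleteEdges_le _))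
  · obtain ⟨x, hx, hxv⟩ := exists_adj_ne G (hdeg u (hS.reach u hu)) v
    refine ⟨x, (hmem x).2 (Adj.reachable ?_), hx.ne'⟩
    rw [deleteEdges_adj]
    refine ⟨hx, fun h => hxv ?_⟩
    rw [Set.mem_singleton_iff] at h
    exact Sym2.congr_right.1 h
  · intro x hx hxu y hxy
    have hx' := (hmem x).1 hx
    refine (hmem y).2 (hx'.trans (Adj.reachable ?_))
    rw [deleteEdges_adj]
    refine ⟨hxy, fun h => ?_⟩
    rw [Set.mem_singleton_iff] at h
    have h1 : x ∈ s(u, v) := h ▸ Sym2.mem_mk_left x y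
    rcases Sym2.mem_iff.1 h1 with h1 | h1
    · exact hxu h1
    · rw [h1] at hx'
      exact hbr hx'
  · refine Finset.card_lt_card ?_
    rw [Finset.ssubset_iff_subset_ne]
    have hsub : ∀ a c, (G.deleteEdges {s(u, v)}).Walk a c →
        (G.deleteEdges {s(u, v)}).Reachable u a → a ∈ S → c ∈ S := by
      intro a c p
      induction p with
      | nil => exact fun _ h => h
      | @cons a d c had p ih =>
        intro h1 h2
        refine ih (h1.trans had.reachable) ?_
        rw [deleteEdges_adj] at had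
        refine hS.closed a h2 ?_ d had.1
        rintro rfl
        exact hb h1
    constructor
    · intro w hw
      obtain ⟨p⟩ := (hmem w).1 hw
      exact hsub u w p (Reachable.refl u) hu
    · intro h
      rw [← h] at hv
      exact hbr ((hmem v).1 hv)

open Classical in
theorem ext : ExtStmt := by
  intro V _ G r hdeg
  -- a valid pair
  have h0 : ∃ n, ∃ S b, Valid G r S b ∧ S.card = n := by
    refine ⟨_, univ.filter (fun w => G.Reachable r w), r, ⟨?_, ?_, ?_, ?_⟩, rfl⟩
    · simp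
    · intro x hx
      simpa using hx
    · obtain ⟨x, hx, hne⟩ := exists_adj_ne G (hdeg r (Reachable.refl r)) r
      exact ⟨x, by simpa using hx.reachable, hne⟩
    · intro x hx _ y hxy
      have : G.Reachable r x := by simpa using hx
      simpa using this.trans hxy.reachable
  obtain ⟨S, b, hS, hcard⟩ := Nat.find_spec h0
  have hmin : ∀ S' b', Valid G r S' b' → S.card ≤ S'.card := by
    intro S' b' h'
    rw [hcard]
    exact Nat.find_min' h0 ⟨S', b', h', rfl⟩
  -- no bridges inside S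
  have hnb : ∀ u ∈ S, ∀ v ∈ S, G.Adj u v → ¬ G.IsBridge s(u, v) := by
    intro u hu v hv _ hbr
    rw [isBridge_iff] at hbr
    by_cases hb : (G.deleteEdges {s(u, v)}).Reachable u b
    · have hb' : ¬ (G.deleteEdges {s(v, u)}).Reachable v b := by
        intro h
        rw [Sym2.eq_swap] at h
        exact hbr (hb.trans h.symm)
      have hbr' : ¬ (G.deleteEdges {s(v, u)}).Reachable v u := by
        intro h
        rw [Sym2.eq_swap] at h
        exact hbr h.symm
      obtain ⟨S', b', h1, h2⟩ := smaller G r hdeg hS hv hu hbr' hb'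
      exact absurd (hmin S' b' h1) (by omega)
    · obtain ⟨S', b', h1, h2⟩ := smaller G r hdeg hS hu hv hbr hb
      exact absurd (hmin S' b' h1) (by omega)
  have hedge : ∀ x ∈ S, x ≠ b → ∃ y, G.Adj x y ∧ ¬ G.IsBridge s(x, y) := by
    intro x hx hxb
    obtain ⟨y, hy, _⟩ := exists_adj_ne G (hdeg x (hS.reach x hx)) x
    exact ⟨y, hy, hnb x hx y (hS.closed x hx hxb y hy) hy⟩
  by_cases hmax : ∃ x ∈ S, x ≠ b ∧ ∀ y ∈ S, dg G y ≤ dg G x
  · obtain ⟨x, hx, hxb, hxm⟩ := hmax
    refine ⟨x, hS.reach x hx, hedge x hx hxb, Or.inr fun y hy => ?_⟩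
    exact hxm y (hS.closed x hx hxb y hy)
  · obtain ⟨z, hz, hzb⟩ := hS.two
    obtain ⟨x, hx, hxm⟩ := Finset.exists_min_image (S.erase b) (dg G)
      ⟨z, Finset.mem_erase.2 ⟨hzb, hz⟩⟩
    obtain ⟨hxb, hxS⟩ := Finset.mem_erase.1 hx
    obtain ⟨t, ht, htm⟩ := Finset.exists_max_image S (dg G) ⟨z, hz⟩
    have htb : t = b := by
      by_contra hne
      exact hmax ⟨t, ht, hne, htm⟩
    refine ⟨x, hS.reach x hxS, hedge x hxS hxb, Or.inl fun y hy => ?_⟩
    have hyS := hS.closed x hxS hxb y hy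
    by_cases hyb : y = b
    · rw [hyb, ← htb]
      exact htm x hxS
    · exact hxm y (Finset.mem_erase.2 ⟨hyb, hyS⟩)

end Pool.Agent.EQB.H89
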