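import Pool.Agent.EQB.Stmts

open Finset SimpleGraph Pool.Agent.Helper51_Equitable

namespace Pool.Agent.EQB.H89

theorem card_forest {V : Type} [Fintype V] (F : SimpleGraph V) (hF : F.IsAcyclic) :
    (edges F).card ≤ Fintype.card V := by
  classical
  rcases isEmpty_or_nonempty V with hV | hV
  · have : edges F = ∅ := by
      rw [Finset.eq_empty_iff_forall_notMem]
      intro e _
      induction e using Sym2.ind with
      | _ a b => exact hV.elim a
    rw [this]
    exact Nat.zero_le _
  · obtain ⟨T, hFT, _, hT⟩ := (connected_top (V := V)).exists_isTree_le_of_le_of_isAcyclic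
      (le_top : F ≤ ⊤) hF
    have h1 := hT.card_edgeFinset
    have h2 : (edges F).card ≤ T.edgeFinset.card := by
      refine Finset.card_le_card ?_
      intro e he
      rw [mem_edgeFinset]
      exact edgeSet_mono hFT (mem_edges.1 he)
    omega

theorem for_ : ForStmt := by
  classical
  intro V _ G D hD hbr hone
  constructor
  · rw [← Finset.card_univ]
    refine Finset.card_le_card_of_injOn (fun e => e.out.1) (fun e _ => Finset.mem_univ _) ?_
    intro e he f hf hef
    simp only [] at hef
    refine hone e he f hf e.out.1 (Sym2.out_fst_mem e) f.out.1 (Sym2.out_fst_mem f) ?_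
    rw [hef]
  · have hadj : ∀ x y, (G.deleteEdges (D : Set (Sym2 V))).Adj x y ↔ G.Adj x y ∧ s(x, y) ∉ D := by
      intro x y
      rw [deleteEdges_adj]
      simp
    have hstep : ∀ u v, G.Adj u v → (G.deleteEdges (D : Set (Sym2 V))).Reachable u v := by
      intro u v huv
      by_cases hd : s(u, v) ∈ D
      · have h1 : (G.deleteEdges {s(u, v)}).Reachable u v := by
          by_contra hc
          exact hbr _ hd hc
        obtain ⟨p⟩ := h1
        have key : ∀ x y, (G.deleteEdges {s(u, v)}).Walk x y → G.Reachable u x →
            (G.deleteEdges (D : Set (Sym2 V))).Reachable x y := by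
          intro x y q
          induction q with
          | nil => exact fun _ => Reachable.refl _
          | @cons a b c hab q ih =>
            intro hu
            rw [deleteEdges_adj] at hab
            have hb : G.Reachable u b := hu.trans hab.1.reachable
            refine Reachable.trans (Adj.reachable ?_) (ih hb)
            refine (hadj a b).2 ⟨hab.1, fun hc => hab.2 ?_⟩
            rw [Set.mem_singleton_iff]
            exact (hone _ hd _ hc u (Sym2.mem_mk_left u v) a (Sym2.mem_mk_left a b) hu).symm
        exact key u v p (Reachable.refl u)
      · exact ((hadj u v).2 ⟨huv, hd⟩).reachable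
    have hreach : (G.deleteEdges (D : Set (Sym2 V))).Reachable = G.Reachable := by
      ext x y
      constructor
      · exact fun h => h.mono (deleteEdges_le _)
      · rintro ⟨p⟩
        induction p with
        | nil => exact Reachable.refl _
        | cons h _ ih => exact (hstep _ _ h).trans ih
    obtain ⟨F, hFG, hFa, hFr⟩ := (G.deleteEdges (D : Set (Sym2 V))).exists_isAcyclic_reachable_eq_le
    refine ⟨F, hFG.trans (deleteEdges_le _), hFr.trans hreach, ?_, card_forest F hFa⟩
    rw [Finset.disjoint_left]
    intro e heD heF
    have := edgeSet_mono hFG (mem_edges.1 heF)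
    induction e using Sym2.ind with
    | _ a b =>
      exact ((hadj a b).1 this).2 heD

end Pool.Agent.EQB.H89
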