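import Pool.Agent.EQB.Stmts

open Finset SimpleGraph Pool.Agent.Helper51_Equitable

namespace Pool.Agent.EQB.H89

theorem gre : GreStmt := by
  intro a r
  induction r with
  | zero =>
    intro h k _ hh
    refine ⟨∅, Finset.empty_subset _, h, ?_, by simp⟩
    simpa using hh
  | succ r ih =>
    intro h k hk hh
    by_cases h1 : h ≤ ∑ i ∈ range r, k i + a
    · obtain ⟨K, hK, t, ht, he⟩ := ih h k (fun i hi => hk i (by omega)) h1
      exact ⟨K, hK.trans (Finset.range_subset_range.2 (by omega)), t, ht, he⟩
    · have hkr := hk r (by omega)
      rw [Finset.sum_range_succ] at hh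
      obtain ⟨K, hK, t, ht, he⟩ := ih (h - k r) k (fun i hi => hk i (by omega)) (by omega)
      have hr : r ∉ K := fun hr => by
        have := Finset.mem_range.1 (hK hr)
        omega
      refine ⟨insert r K, ?_, t, ht, ?_⟩
      · intro i hi
        rcases Finset.mem_insert.1 hi with rfl | hi
        · exact Finset.mem_range.2 (by omega)
        · have := Finset.mem_range.1 (hK hi)
          exact Finset.mem_range.2 (by omega)
      · rw [Finset.sum_insert hr]
        omega

theorem fam (sev : SevStmt) : FamStmt := by
  classical
  intro V _ _ E
  induction hn : E.card using Nat.strong_induction_on generalizing E with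
  | _ n ih =>
    intro hE
    by_cases h : 2 * Fintype.card V ≤ E.card
    · obtain ⟨Z, hZE, hZn, hZe, hZc⟩ := sev V E hE h
      have hpos : 0 < Z.card := Finset.card_pos.2 hZn
      have hcard : (E \ Z).card + Z.card = E.card := by
        rw [Finset.card_sdiff_add_card_eq_card hZE]
      obtain ⟨r, W, h1, h2, h3⟩ := ih (E \ Z).card (by omega) (E \ Z) rfl
        (fun e he => hE e (Finset.mem_sdiff.1 he).1)
      refine ⟨r + 1, fun i => if i < r then W i else Z, ?_, ?_, ?_⟩
      · intro i hi
        by_cases hir : i < r
        · simp only [if_pos hir]
          obtain ⟨a1, a2, a3, a4⟩ := h1 i hir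
          exact ⟨a1.trans Finset.sdiff_subset, a2, a3, a4⟩
        · simp only [if_neg hir]
          exact ⟨hZE, hZn, hZe, hZc⟩
      · intro i hi j hj hij
        by_cases hir : i < r
        · by_cases hjr : j < r
          · simp only [if_pos hir, if_pos hjr]
            exact h2 i hir j hjr hij
          · simp only [if_pos hir, if_neg hjr]
            exact Finset.disjoint_of_subset_left (h1 i hir).1 Finset.sdiff_disjoint
        · by_cases hjr : j < r
          · simp only [if_neg hir, if_pos hjr]
            exact (Finset.disjoint_of_subset_left (h1 j hjr).1 Finset.sdiff_disjoint).symm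
          · omega
      · rw [Finset.sum_range_succ]
        have hs : ∑ i ∈ range r, (if i < r then W i else Z).card = ∑ i ∈ range r, (W i).card := by
          refine Finset.sum_congr rfl fun i hi => ?_
          rw [if_pos (Finset.mem_range.1 hi)]
        have hz : (fun i => if i < r then W i else Z) r = Z := if_neg (lt_irrefl r)
        rw [hs, hz]
        omega
    · refine ⟨0, fun _ => ∅, fun i hi => absurd hi (by omega), fun i hi => absurd hi (by omega), ?_⟩
      simp only [Finset.range_zero, Finset.sum_empty]
      omega

end Pool.Agent.EQB.H89
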