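import Pool.Agent.EQB.Stmts

open Finset SimpleGraph Pool.Agent.Helper51_Equitable

namespace Pool.Agent.EQB.H89

open Classical in
/-- the edges of `J` at `v` -/
noncomputable def inc {V : Type} (J : Finset (Sym2 V)) (v : V) : Finset (Sym2 V) :=
  J.filter fun e => v ∈ e

theorem mem_inc {V : Type} {J : Finset (Sym2 V)} {v : V} {e : Sym2 V} :
    e ∈ inc J v ↔ e ∈ J ∧ v ∈ e := by
  classical
  unfold inc
  simp only [Finset.mem_filter]

theorem dJ_eq_inc {V : Type} (J : Finset (Sym2 V)) (v : V) : dJ J v = (inc J v).card := by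
  unfold dJ inc
  rfl

/-- a half of an even set which contains or avoids a given element -/
theorem half {α : Type} [DecidableEq α] (s : Finset α) (hs : Even s.card) (e : α) (he : e ∈ s)
    (b : Prop) : ∃ t ⊆ s, 2 * t.card = s.card ∧ (b → e ∈ t) ∧ (¬ b → e ∉ t) := by
  obtain ⟨k, hk⟩ := hs
  have hpos : 0 < s.card := Finset.card_pos.2 ⟨e, he⟩
  have hce : (s.erase e).card = k + k - 1 := by
    rw [Finset.card_erase_of_mem he, hk]
  by_cases hb : b
  · obtain ⟨t, ht, htc⟩ := Finset.exists_subset_card_eq (s := s.erase e) (n := k - 1) (by omega)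
    have het : e ∉ t := fun h => absurd (ht h) (Finset.notMem_erase e s)
    refine ⟨insert e t, ?_, ?_, fun _ => Finset.mem_insert_self e t, fun h => absurd hb h⟩
    · intro x hx
      rcases Finset.mem_insert.1 hx with rfl | hx
      · exact he
      · exact Finset.mem_of_mem_erase (ht hx)
    · rw [Finset.card_insert_of_notMem het, htc]
      omega
  · obtain ⟨t, ht, htc⟩ := Finset.exists_subset_card_eq (s := s.erase e) (n := k) (by omega)
    refine ⟨t, ht.trans (Finset.erase_subset _ _), by omega, fun h => absurd h hb, fun _ h => ?_⟩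
    exact absurd (ht h) (Finset.notMem_erase e s)

theorem hlf : HlfStmt := by
  classical
  intro V _ J X U lo hbip hev hUX hUone
  -- choice at every `y`
  have hy : ∀ y, ¬ X y → ∃ t ⊆ inc J y, 2 * t.card = (inc J y).card ∧
      ∀ u ∈ U, s(u, y) ∈ J → ((lo u → s(u, y) ∈ t) ∧ (¬ lo u → s(u, y) ∉ t)) := by
    intro y hy
    have he := hev y hy
    rw [dJ_eq_inc] at he
    by_cases hu : ∃ u ∈ U, s(u, y) ∈ J
    · obtain ⟨u, huU, huJ⟩ := hu
      obtain ⟨t, h1, h2, h3, h4⟩ := half (inc J y) he s(u, y)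
        (mem_inc.2 ⟨huJ, Sym2.mem_mk_right u y⟩) (lo u)
      refine ⟨t, h1, h2, fun w hw hwJ => ?_⟩
      have : u = w := hUone u huU w hw y huJ hwJ
      subst this
      exact ⟨h3, h4⟩
    · obtain ⟨k, hk⟩ := he
      obtain ⟨t, ht, htc⟩ := Finset.exists_subset_card_eq (s := inc J y) (n := k) (by omega)
      exact ⟨t, ht, by omega, fun w hw hwJ => absurd ⟨w, hw, hwJ⟩ hu⟩
  choose! t ht1 ht2 ht3 using hy
  let A : Finset (Sym2 V) := (univ.filter fun y => ¬ X y).biUnion t
  have hmemA : ∀ e, e ∈ A ↔ ∃ y, ¬ X y ∧ e ∈ t y := by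
    intro e
    simp only [A, Finset.mem_biUnion, Finset.mem_filter, Finset.mem_univ, true_and]
  have hAJ : A ⊆ J := by
    intro e he
    obtain ⟨y, hy, het⟩ := (hmemA e).1 he
    exact (mem_inc.1 (ht1 y hy het)).1
  have hAy : ∀ y, ¬ X y → inc A y = t y := by
    intro y hy
    ext e
    rw [mem_inc, hmemA]
    constructor
    · rintro ⟨⟨z, hz, hez⟩, hye⟩
      have hez' := mem_inc.1 (ht1 z hz hez)
      by_cases hzy : z = y
      · rw [← hzy]
        exact hez
      · exfalso
        have he : e = s(z, y) := by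
          rw [← Sym2.mem_and_mem_iff hzy]
          exact ⟨hez'.2, hye⟩
        have h1 := hbip z y (he ▸ hez'.1)
        exact hz (h1.2 hy)
    · intro he
      exact ⟨⟨y, hy, he⟩, (mem_inc.1 (ht1 y hy he)).2⟩
  refine ⟨A, hAJ, ?_, ?_, ?_⟩
  · intro y hy
    rw [dJ_eq_inc, dJ_eq_inc, hAy y hy]
    exact ht2 y hy
  · intro u hu hlo
    rw [dJ_eq_inc, dJ_eq_inc]
    congr 1
    ext e
    rw [mem_inc, mem_inc]
    constructor
    · rintro ⟨h1, h2⟩
      exact ⟨hAJ h1, h2⟩
    · rintro ⟨h1, h2⟩
      refine ⟨?_, h2⟩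
      obtain ⟨y, rfl⟩ := Sym2.mem_iff_exists.1 h2
      have hyX : ¬ X y := (hbip u y h1).1 (hUX u hu)
      exact (hmemA _).2 ⟨y, hyX, (ht3 y hyX u hu h1).1 hlo⟩
  · intro u hu hlo
    rw [dJ_eq_inc, Finset.card_eq_zero, Finset.eq_empty_iff_forall_notMem]
    intro e he
    obtain ⟨h1, h2⟩ := mem_inc.1 he
    obtain ⟨y, rfl⟩ := Sym2.mem_iff_exists.1 h2
    have hJ := hAJ h1
    have hyX : ¬ X y := (hbip u y hJ).1 (hUX u hu)
    have h3 := (ht3 y hyX u hu hJ).2 hlo
    rw [← hAy y hyX, mem_inc] at h3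
    exact h3 ⟨h1, Sym2.mem_mk_right u y⟩

theorem lbl : LblStmt := by
  classical
  intro V _ G J A hJ hA
  have hlab : ∀ e, lab J A e = if e ∈ A then 1 else if e ∈ J then 3 else 2 := fun e => by
    unfold lab
    rfl
  refine ⟨?_, ?_, ?_, ?_, ?_⟩
  · intro v
    rw [vertexSum_eq_edges]
    have h1 : ∀ e, lab J A e + 2 * (if e ∈ A then 1 else 0) = 2 + (if e ∈ J then 1 else 0) := by
      intro e
      rw [hlab]
      by_cases h : e ∈ A
      · rw [if_pos h, if_pos h, if_pos (hA h)]
      · rw [if_neg h, if_neg h]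
        by_cases h' : e ∈ J
        · rw [if_pos h', if_pos h']
        · rw [if_neg h', if_neg h']
    have h2 := Finset.sum_congr (rfl : (edges G).filter (fun e => v ∈ e) = _) (fun e _ => h1 e)
    rw [Finset.sum_add_distrib, Finset.sum_add_distrib, ← Finset.mul_sum] at h2
    have h3 : ∀ K ⊆ edges G, ∑ e ∈ (edges G).filter (fun e => v ∈ e), (if e ∈ K then 1 else 0)
        = dJ K v := by
      intro K hK
      rw [← Finset.sum_filter, ← Finset.card_eq_sum_ones]
      unfold dJ
      congr 1
      ext e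
      simp only [Finset.mem_filter]
      constructor
      · rintro ⟨⟨_, h⟩, h'⟩
        exact ⟨h', h⟩
      · rintro ⟨h, h'⟩
        exact ⟨⟨hK h, h'⟩, h⟩
    rw [h3 A (hA.trans hJ), h3 J hJ, Finset.sum_const, smul_eq_mul] at h2
    have h4 : ((edges G).filter (fun e => v ∈ e)).card = dg G v := by
      unfold dg dJ
      rfl
    rw [h4] at h2
    omega
  · rw [nb_eq]
    congr 1
    ext e
    rw [Finset.mem_filter, hlab]
    constructor
    · rintro ⟨_, h⟩
      by_contra hc
      rw [if_neg hc] at h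
      split_ifs at h
      all_goals omega
    · intro h
      exact ⟨hJ (hA h), if_pos h⟩
  · rw [nb_eq]
    have : (edges G).filter (fun e => lab J A e = 2) = edges G \ J := by
      ext e
      rw [Finset.mem_filter, Finset.mem_sdiff, hlab]
      refine and_congr_right fun _ => ?_
      constructor
      · intro h hc
        by_cases hA' : e ∈ A
        · rw [if_pos hA'] at h
          omega
        · rw [if_neg hA', if_pos hc] at h
          omega
      · intro h
        rw [if_neg (fun hc => h (hA hc)), if_neg h]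
    rw [this, Finset.card_sdiff_add_card_eq_card hJ]
  · rw [nb_eq]
    have : (edges G).filter (fun e => lab J A e = 3) = J \ A := by
      ext e
      rw [Finset.mem_filter, Finset.mem_sdiff, hlab]
      constructor
      · rintro ⟨_, h⟩
        by_cases hA' : e ∈ A
        · rw [if_pos hA'] at h
          omega
        · rw [if_neg hA'] at h
          by_cases hc : e ∈ J
          · exact ⟨hc, hA'⟩
          · rw [if_neg hc] at h
            omega
      · rintro ⟨h, h'⟩
        exact ⟨hJ h, by rw [if_neg h', if_pos h]⟩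
    rw [this, Finset.card_sdiff_add_card_eq_card hA]
  · intro l h1 h2 h3
    rw [nb_eq, Finset.card_eq_zero, Finset.filter_eq_empty_iff]
    intro e _
    rw [hlab]
    split_ifs
    all_goals omega

end Pool.Agent.EQB.H89
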