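import Pool.Agent.Helper89_EQB.SEV
import Pool.Agent.Helper89_EQB.EXJ
import Pool.Agent.Helper89_EQB.GRE
import Pool.Agent.Helper89_EQB.DAT
import Pool.Agent.Helper89_EQB.EXT
import Pool.Agent.Helper89_EQB.FOR
import Pool.Agent.Helper89_EQB.HLF

open Finset SimpleGraph Pool.Agent.Helper51_Equitable

namespace Pool.Agent.EQB.H89

open Classical in
theorem mai (dat : DatStmt) (for' : ForStmt) (exj : ExjStmt) (hlf : HlfStmt) (lbl : LblStmt) :
    MainStmt := by
  intro V _ G hN hB hm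
  rcases isEmpty_or_nonempty V with hV | hV
  · refine ⟨fun _ => 1, ?_, ?_, ?_⟩
    · intro e _
      exact ⟨le_rfl, by norm_num⟩
    · intro u
      exact isEmptyElim u
    · intro l l' hl _
      exfalso
      rw [nb_eq, Finset.card_pos] at hl
      obtain ⟨e, _⟩ := hl
      induction e using Sym2.ind with
      | _ a b => exact isEmptyElim a
  obtain ⟨X, U, D, hD⟩ := dat V G hN hB
  obtain ⟨hDc, F, hFG, hFr, hDF, hFc⟩ := for' V G D hD.Dsub hD.Dbr hD.Done
  obtain ⟨T, hT⟩ : ∃ T : Finset V, ∀ v, v ∈ T ↔ X v ∧ v ∉ U :=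
    ⟨univ.filter fun v => X v ∧ v ∉ U, fun v => by simp⟩
  obtain ⟨m, hmm⟩ : ∃ m, m = (edges G).card := ⟨_, rfl⟩
  obtain ⟨τ, hτe, hτ1, hτ2⟩ : ∃ τ, Even τ ∧ 2 * (edges G).card ≤ 3 * τ + 2 ∧
      3 * τ ≤ 2 * (edges G).card + 2 := by
    rw [← hmm]
    have h3 : m % 3 = 0 ∨ m % 3 = 1 ∨ m % 3 = 2 := by omega
    rcases h3 with h | h | h
    · exact ⟨2 * (m / 3), even_two_mul _, by omega, by omega⟩
    · exact ⟨2 * (m / 3), even_two_mul _, by omega, by omega⟩
    · exact ⟨2 * (m / 3 + 1), even_two_mul _, by omega, by omega⟩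
  obtain ⟨J, hJG, hDJ, hJc, hJo⟩ := exj V G F X T D τ hD.bip (fun v hv => ((hT v).1 hv).1)
    hFG hFr hD.Dsub hDF (hD.even T hT) hFc hDc hm hτe hτ1 hτ2
  have hbJ : ∀ x y, s(x, y) ∈ J → (X x ↔ ¬ X y) := fun x y h =>
    hD.bip x y (mem_edges.1 (hJG h))
  have hev : ∀ y, ¬ X y → Even (dJ J y) := by
    intro y hy
    rw [← Nat.not_odd_iff_even, hJo y, hT y]
    exact fun h => hy h.1
  have hUo : ∀ u ∈ U, ∀ w ∈ U, ∀ y, s(u, y) ∈ J → s(w, y) ∈ J → u = w := by
    intro u hu w hw y h1 h2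
    have a1 : G.Adj u y := mem_edges.1 (hJG h1)
    have a2 : G.Adj w y := mem_edges.1 (hJG h2)
    exact hD.Uone u hu w hw (a1.reachable.trans a2.symm.reachable)
  obtain ⟨A, hAJ, hA1, hA2, hA3⟩ := hlf V J X U (fun u => ∀ y, G.Adj u y → dg G u ≤ dg G y)
    hbJ hev hD.UX hUo
  obtain ⟨hs, h1, h2, h3, h0⟩ := lbl V G J A hJG hAJ
  have hside : ∀ y, ¬ X y → vertexSum G (lab J A) y = 2 * dg G y := by
    intro y hy
    have a1 := hs y
    have a2 := hA1 y hy
    omega
  have hmain : ∀ x y, G.Adj x y → X x → vertexSum G (lab J A) x ≠ 2 * dg G y := by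
    intro x y hxy hx
    have a1 := hs x
    by_cases hxU : x ∈ U
    · have hev : Even (dJ J x) := by
        rw [← Nat.not_odd_iff_even, hJo x, hT x]
        exact fun h => h.2 hxU
      have hAle := dJ_mono hAJ x
      rcases hD.ext x hxU with ⟨hd1, hd2⟩ | ⟨⟨e, heD, hxe⟩, hmm'⟩
      · have hle : dJ J x ≤ 1 := by
          rw [← hd1]
          exact dJ_mono hJG x
        have := hd2 y hxy
        obtain ⟨k, hk⟩ := hev
        omega
      · have hpos : 0 < dJ J x := dJ_pos.2 ⟨e, hDJ heD, hxe⟩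
        have hle : dJ J x ≤ dg G x := dJ_mono hJG x
        by_cases hlo : ∀ y, G.Adj x y → dg G x ≤ dg G y
        · have a2 := hA2 x hxU hlo
          have a3 := hlo y hxy
          omega
        · have a2 := hA3 x hxU hlo
          rcases hmm' with h | h
          · exact absurd h hlo
          · have a3 := h y hxy
            omega
    · have hodd : Odd (dJ J x) := (hJo x).2 ((hT x).2 ⟨hx, hxU⟩)
      obtain ⟨k, hk⟩ := hodd
      omega
  have hcount : 2 * A.card = J.card := by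
    have hbA : ∀ x y, s(x, y) ∈ A → (X x ↔ ¬ X y) := fun x y h => hbJ x y (hAJ h)
    rw [← sum_dJ_side J X hbJ, ← sum_dJ_side A X hbA, Finset.mul_sum]
    refine Finset.sum_congr rfl fun y hy => ?_
    exact hA1 y (Finset.mem_filter.1 hy).2
  refine ⟨lab J A, ?_, ?_, ?_⟩
  · intro e _
    unfold lab
    split_ifs
    · exact ⟨by norm_num, by norm_num⟩
    · exact ⟨by norm_num, by norm_num⟩
    · exact ⟨by norm_num, by norm_num⟩
  · intro u v huv h
    by_cases hu : X u
    · have hv : ¬ X v := (hD.bip u v huv).1 hu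
      rw [hside v hv] at h
      exact hmain u v huv hu h
    · have hv : X v := by
        by_contra hv
        exact hu ((hD.bip u v huv).2 hv)
      rw [hside u hu] at h
      exact hmain v u huv.symm hv h.symm
  · intro l l' hl hl'
    have hcase : ∀ l, 0 < nb G (lab J A) l → l = 1 ∨ l = 2 ∨ l = 3 := by
      intro l hl
      by_contra hc
      push Not at hc
      rw [h0 l hc.1 hc.2.1 hc.2.2] at hl
      exact absurd hl (lt_irrefl 0)
    rcases hcase l hl with rfl | rfl | rfl <;> rcases hcase l' hl' with rfl | rfl | rfl <;> omega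

theorem main : MainStmt :=
  mai (dat ext) for_ (exj tjn (fam sev) gre) hlf lbl

end Pool.Agent.EQB.H89
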