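import Pool.Agent.EQB.Stmts

open Finset SimpleGraph Pool.Agent.Helper51_Equitable

namespace Pool.Agent.EQB.H89

open Classical in
/-- a nonempty subset all of whose positive degrees are at least 3 -/
theorem core3 {V : Type} [Fintype V] [Nonempty V] (E : Finset (Sym2 V))
    (hE : ∀ e ∈ E, ¬ e.IsDiag) (h : 2 * Fintype.card V ≤ E.card) :
    ∃ E' ⊆ E, E'.Nonempty ∧ ∀ v, 0 < dJ E' v → 3 ≤ dJ E' v := by
  have key : ∀ n : ℕ, ∀ W : Finset V, W.card = n → W.Nonempty →
      2 * W.card ≤ (E.filter fun e => ∀ x ∈ e, x ∈ W).card →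
      ∃ E' ⊆ E, E'.Nonempty ∧ ∀ v, 0 < dJ E' v → 3 ≤ dJ E' v := by
    intro n
    induction n using Nat.strong_induction_on with
    | _ n ih =>
      intro W hn hW hc
      by_cases hd : ∀ v ∈ W, 3 ≤ dJ (E.filter fun e => ∀ x ∈ e, x ∈ W) v
      · refine ⟨E.filter fun e => ∀ x ∈ e, x ∈ W, Finset.filter_subset _ _, ?_, ?_⟩
        · have : 0 < W.card := Finset.card_pos.2 hW
          exact Finset.card_pos.1 (by omega)
        · intro v hv
          obtain ⟨e, he, hve⟩ := dJ_pos.1 hv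
          exact hd v ((Finset.mem_filter.1 he).2 v hve)
      · push Not at hd
        obtain ⟨v, hvW, hv⟩ := hd
        have hsub : (E.filter fun e => ∀ x ∈ e, x ∈ W.erase v) =
            (E.filter fun e => ∀ x ∈ e, x ∈ W).filter (fun e => ¬ v ∈ e) := by
          ext e
          simp only [Finset.mem_filter, Finset.mem_erase]
          constructor
          · rintro ⟨h1, h2⟩
            exact ⟨⟨h1, fun x hx => (h2 x hx).2⟩, fun hv => (h2 v hv).1 rfl⟩
          · rintro ⟨⟨h1, h2⟩, h3⟩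
            exact ⟨h1, fun x hx => ⟨fun h => h3 (h ▸ hx), h2 x hx⟩⟩
        have hcard : dJ (E.filter fun e => ∀ x ∈ e, x ∈ W) v +
            (E.filter fun e => ∀ x ∈ e, x ∈ W.erase v).card =
            (E.filter fun e => ∀ x ∈ e, x ∈ W).card := by
          rw [hsub]
          unfold dJ
          exact Finset.card_filter_add_card_filter_not _
        have hWc : (W.erase v).card + 1 = W.card := Finset.card_erase_add_one hvW
        have hne : (W.erase v).Nonempty := by
          by_contra hcon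
          rw [Finset.not_nonempty_iff_eq_empty] at hcon
          have h0 : (E.filter fun e => ∀ x ∈ e, x ∈ W) = ∅ := by
            rw [Finset.filter_eq_empty_iff]
            intro e he hx
            apply hE e he
            induction e using Sym2.ind with
            | _ a b =>
              have ha : a = v := by
                by_contra hav
                have : a ∈ W.erase v := Finset.mem_erase.2 ⟨hav, hx a (Sym2.mem_mk_left a b)⟩
                rw [hcon] at this
                simp at this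
              have hb : b = v := by
                by_contra hbv
                have : b ∈ W.erase v := Finset.mem_erase.2 ⟨hbv, hx b (Sym2.mem_mk_right a b)⟩
                rw [hcon] at this
                simp at this
              rw [ha, hb]
              exact Sym2.mk_isDiag_iff.2 rfl
          rw [h0, Finset.card_empty] at hc
          omega
        exact ih (n - 1) (by omega) (W.erase v) (by omega) hne (by omega)
  refine key _ Finset.univ rfl Finset.univ_nonempty ?_
  have h1 : (E.filter fun e => ∀ x ∈ e, x ∈ (Finset.univ : Finset V)) = E := by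
    apply Finset.filter_true_of_mem
    intro e _ x _
    exact Finset.mem_univ x
  rw [h1, Finset.card_univ]
  exact h

open Classical in
/-- extension of a join by one edge -/
theorem ext_join {V : Type} {J : Finset (Sym2 V)} {w v r : V} (hne : w ≠ v)
    (hJ : ∀ x, Odd (dJ J x) ↔ (x = r ↔ x ≠ w)) (x : V) :
    Odd (dJ (symmDiff J {s(w, v)}) x) ↔ (x = r ↔ x ≠ v) := by
  have hs : Odd (dJ {s(w, v)} x) ↔ (x = w ∨ x = v) := by
    rw [dJ_singleton]
    by_cases hm : x ∈ s(w, v)
    · rw [if_pos hm]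
      exact ⟨fun _ => Sym2.mem_iff.1 hm, fun _ => odd_one⟩
    · rw [if_neg hm]
      exact ⟨fun h => absurd h (by decide), fun h => absurd (Sym2.mem_iff.2 h) hm⟩
  rw [dJ_symmDiff, hJ x, hs]
  by_cases h1 : x = w
  · subst h1
    simp [hne]
  · by_cases h2 : x = v
    · subst h2
      simp [h1]
    · simp [h1, h2]

open Classical in
/-- two joins to the same vertex give a nonempty even set -/
theorem two_joins {V : Type} {E J1 J2 : Finset (Sym2 V)} {w1 w2 v r : V} {i : ℕ}
    (h1 : J1 ⊆ E) (h2 : J2 ⊆ E) (c1 : J1.card ≤ i) (c2 : J2.card ≤ i)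
    (o1 : ∀ x, Odd (dJ J1 x) ↔ (x = r ↔ x ≠ w1)) (o2 : ∀ x, Odd (dJ J2 x) ↔ (x = r ↔ x ≠ w2))
    (n1 : w1 ≠ v) (n2 : w2 ≠ v) (e1 : s(w1, v) ∈ E) (e2 : s(w2, v) ∈ E) (h12 : w1 ≠ w2)
    (m1 : s(w1, v) ∉ J1) (m2 : s(w1, v) ∉ J2) :
    ∃ Z ⊆ E, Z.Nonempty ∧ (∀ x, Even (dJ Z x)) ∧ Z.card ≤ 2 * (i + 1) := by
  have hsub : ∀ {A B : Finset (Sym2 V)}, A ⊆ E → B ⊆ E → symmDiff A B ⊆ E := by
    intro A B hA hB e he
    rw [Finset.mem_symmDiff] at he
    rcases he with ⟨he, _⟩ | ⟨he, _⟩
    · exact hA he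
    · exact hB he
  have hcard : ∀ A B : Finset (Sym2 V), (symmDiff A B).card ≤ A.card + B.card := by
    intro A B
    have h1 : symmDiff A B ⊆ A ∪ B := by
      intro e he
      rw [Finset.mem_symmDiff] at he
      rw [Finset.mem_union]
      rcases he with ⟨he, _⟩ | ⟨he, _⟩
      · exact Or.inl he
      · exact Or.inr he
    exact (Finset.card_le_card h1).trans (Finset.card_union_le A B)
  refine ⟨symmDiff (symmDiff J1 {s(w1, v)}) (symmDiff J2 {s(w2, v)}), ?_, ?_, ?_, ?_⟩
  · exact hsub (hsub h1 (Finset.singleton_subset_iff.2 e1))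
      (hsub h2 (Finset.singleton_subset_iff.2 e2))
  · refine ⟨s(w1, v), ?_⟩
    have hne : s(w1, v) ≠ s(w2, v) := by
      intro h
      exact h12 (Sym2.congr_left.1 h)
    rw [Finset.mem_symmDiff, Finset.mem_symmDiff, Finset.mem_symmDiff]
    refine Or.inl ⟨Or.inr ⟨Finset.mem_singleton_self _, m1⟩, ?_⟩
    rintro (⟨h, _⟩ | ⟨h, _⟩)
    · exact m2 h
    · exact hne (Finset.mem_singleton.1 h)
  · intro x
    rw [← Nat.not_odd_iff_even, dJ_symmDiff, ext_join n1 o1 x, ext_join n2 o2 x]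
    tauto
  · have a1 := hcard (symmDiff J1 {s(w1, v)}) (symmDiff J2 {s(w2, v)})
    have a2 := hcard J1 {s(w1, v)}
    have a3 := hcard J2 {s(w2, v)}
    rw [Finset.card_singleton] at a2 a3
    omega

/-- the levels -/
structure Lv {V : Type} (E : Finset (Sym2 V)) (r : V) (i : ℕ) (B L : Finset V) : Prop where
  LB : L ⊆ B
  big : 2 ^ i ≤ L.card
  deg : ∀ v ∈ L, 3 ≤ dJ E v
  join : ∀ w ∈ B, ∃ J ⊆ E, J.card ≤ i ∧ (∀ v, Odd (dJ J v) ↔ (v = r ↔ v ≠ w)) ∧
    (∀ e ∈ J, ∀ x ∈ e, x ∈ B) ∧ (∀ e ∈ J, ∀ x ∈ e, x ∈ L → x = w)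

open Classical in
/-- the number of neighbours is the number of edges at `v` -/
theorem nbr_count {V : Type} [Fintype V] (E : Finset (Sym2 V)) (v : V) :
    dJ E v = (univ.filter fun x => s(v, x) ∈ E).card := by
  unfold dJ
  symm
  refine Finset.card_bij (fun x _ => s(v, x)) ?_ ?_ ?_
  · intro x hx
    exact Finset.mem_filter.2 ⟨(Finset.mem_filter.1 hx).2, Sym2.mem_mk_left v x⟩
  · intro x _ y _ h
    exact Sym2.congr_right.1 h
  · intro e he
    obtain ⟨he, hv⟩ := Finset.mem_filter.1 he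
    obtain ⟨w, rfl⟩ := Sym2.mem_iff_exists.1 hv
    exact ⟨w, Finset.mem_filter.2 ⟨Finset.mem_univ _, he⟩, rfl⟩

open Classical in
theorem lv_step {V : Type} [Fintype V] {E : Finset (Sym2 V)} {r : V} {i : ℕ} {B L : Finset V}
    (hE : ∀ e ∈ E, ¬ e.IsDiag) (h3 : ∀ v, 0 < dJ E v → 3 ≤ dJ E v)
    (hno : ¬ ∃ Z ⊆ E, Z.Nonempty ∧ (∀ x, Even (dJ Z x)) ∧ Z.card ≤ 2 * (i + 1))
    (h : Lv E r i B L) : ∃ B' L', Lv E r (i + 1) B' L' := by
  obtain ⟨LB, big, deg, join⟩ := h
  have hne : ∀ x y, s(x, y) ∈ E → x ≠ y := by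
    rintro x y hxy rfl
    exact hE _ hxy (Sym2.mk_isDiag_iff.2 rfl)
  set L' : Finset V := univ.filter fun x => x ∉ B ∧ ∃ v ∈ L, s(v, x) ∈ E with hL'
  have mem' : ∀ {x}, x ∈ L' ↔ x ∉ B ∧ ∃ v ∈ L, s(v, x) ∈ E := by
    intro x
    rw [hL', Finset.mem_filter]
    exact ⟨fun h => h.2, fun h => ⟨Finset.mem_univ _, h⟩⟩
  -- at most one neighbour in B
  have one : ∀ v ∈ L, (univ.filter fun x => s(v, x) ∈ E ∧ x ∈ B).card ≤ 1 := by
    intro v hv
    rw [Finset.card_le_one]
    intro w1 hw1 w2 hw2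
    obtain ⟨_, h1, b1⟩ := Finset.mem_filter.1 hw1
    obtain ⟨_, h2, b2⟩ := Finset.mem_filter.1 hw2
    by_contra h12
    obtain ⟨J1, s1, c1, o1, a1, l1⟩ := join w1 b1
    obtain ⟨J2, s2, c2, o2, a2, l2⟩ := join w2 b2
    rw [Sym2.eq_swap] at h1 h2
    have n1 : w1 ≠ v := hne _ _ h1
    have n2 : w2 ≠ v := hne _ _ h2
    refine hno (two_joins s1 s2 c1 c2 o1 o2 n1 n2 h1 h2 h12 ?_ ?_)
    · intro hm
      exact n1 (l1 _ hm v (Sym2.mem_mk_right w1 v) hv).symm
    · intro hm
      exact n2 (l2 _ hm v (Sym2.mem_mk_right w1 v) hv).symm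
  -- at least two neighbours outside
  have out : ∀ v ∈ L, 2 ≤ (L'.filter fun x => s(v, x) ∈ E).card := by
    intro v hv
    have c3 := deg v hv
    rw [nbr_count] at c3
    have hs : (univ.filter fun x => s(v, x) ∈ E) ⊆
        (univ.filter fun x => s(v, x) ∈ E ∧ x ∈ B) ∪ (L'.filter fun x => s(v, x) ∈ E) := by
      intro x hx
      have hx2 := (Finset.mem_filter.1 hx).2
      rw [Finset.mem_union]
      by_cases hb : x ∈ B
      · exact Or.inl (Finset.mem_filter.2 ⟨Finset.mem_univ _, hx2, hb⟩)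
      · exact Or.inr (Finset.mem_filter.2 ⟨mem'.2 ⟨hb, v, hv, hx2⟩, hx2⟩)
    have c4 := (Finset.card_le_card hs).trans (Finset.card_union_le _ _)
    have c5 := one v hv
    omega
  -- a unique parent
  have uniq : ∀ x ∈ L', (L.filter fun v => s(v, x) ∈ E).card ≤ 1 := by
    intro x hx
    have hxB := (mem'.1 hx).1
    rw [Finset.card_le_one]
    intro w1 hw1 w2 hw2
    obtain ⟨b1, h1⟩ := Finset.mem_filter.1 hw1
    obtain ⟨b2, h2⟩ := Finset.mem_filter.1 hw2
    by_contra h12
    obtain ⟨J1, s1, c1, o1, a1, l1⟩ := join w1 (LB b1)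
    obtain ⟨J2, s2, c2, o2, a2, l2⟩ := join w2 (LB b2)
    refine hno (two_joins s1 s2 c1 c2 o1 o2 (hne _ _ h1) (hne _ _ h2) h1 h2 h12 ?_ ?_)
    · intro hm
      exact hxB (a1 _ hm x (Sym2.mem_mk_right w1 x))
    · intro hm
      exact hxB (a2 _ hm x (Sym2.mem_mk_right w1 x))
  refine ⟨B ∪ L', L', Finset.subset_union_right, ?_, ?_, ?_⟩
  · have c1 : ∑ v ∈ L, 2 ≤ ∑ v ∈ L, (L'.filter fun x => s(v, x) ∈ E).card :=
      Finset.sum_le_sum out
    have c2 : ∑ v ∈ L, (L'.filter fun x => s(v, x) ∈ E).card =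
        ∑ x ∈ L', (L.filter fun v => s(v, x) ∈ E).card :=
      Finset.sum_card_bipartiteAbove_eq_sum_card_bipartiteBelow (fun v x => s(v, x) ∈ E)
    have c3 : ∑ x ∈ L', (L.filter fun v => s(v, x) ∈ E).card ≤ ∑ x ∈ L', 1 :=
      Finset.sum_le_sum uniq
    rw [Finset.sum_const, smul_eq_mul] at c1
    rw [Finset.sum_const, smul_eq_mul, mul_one] at c3
    rw [pow_succ]
    omega
  · intro x hx
    obtain ⟨_, v, hv, hvx⟩ := mem'.1 hx
    exact h3 x (dJ_pos.2 ⟨_, hvx, Sym2.mem_mk_right v x⟩)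
  · intro w hw
    rcases Finset.mem_union.1 hw with hw | hw
    · obtain ⟨J, s, c, o, a, l⟩ := join w hw
      refine ⟨J, s, by omega, o, fun e he x hx => Finset.mem_union_left _ (a e he x hx), ?_⟩
      intro e he x hx hxL
      exact absurd (a e he x hx) (mem'.1 hxL).1
    · obtain ⟨hwB, v, hv, hvw⟩ := mem'.1 hw
      obtain ⟨J, s, c, o, a, l⟩ := join v (LB hv)
      refine ⟨symmDiff J {s(v, w)}, ?_, ?_, ext_join (hne _ _ hvw) o, ?_, ?_⟩
      · intro e he
        rw [Finset.mem_symmDiff] at he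
        rcases he with ⟨he, _⟩ | ⟨he, _⟩
        · exact s he
        · rw [Finset.mem_singleton.1 he]
          exact hvw
      · have hs : symmDiff J {s(v, w)} ⊆ J ∪ {s(v, w)} := by
          intro e he
          rw [Finset.mem_symmDiff] at he
          rw [Finset.mem_union]
          rcases he with ⟨he, _⟩ | ⟨he, _⟩
          · exact Or.inl he
          · exact Or.inr he
        have c2 := (Finset.card_le_card hs).trans (Finset.card_union_le _ _)
        rw [Finset.card_singleton] at c2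
        omega
      · intro e he x hx
        rw [Finset.mem_symmDiff] at he
        rcases he with ⟨he, _⟩ | ⟨he, _⟩
        · exact Finset.mem_union_left _ (a e he x hx)
        · rw [Finset.mem_singleton.1 he, Sym2.mem_iff] at hx
          rcases hx with rfl | rfl
          · exact Finset.mem_union_left _ (LB hv)
          · exact Finset.mem_union_right _ hw
      · intro e he x hx hxL
        have hxB := (mem'.1 hxL).1
        rw [Finset.mem_symmDiff] at he
        rcases he with ⟨he, _⟩ | ⟨he, _⟩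
        · exact absurd (a e he x hx) hxB
        · rw [Finset.mem_singleton.1 he, Sym2.mem_iff] at hx
          rcases hx with rfl | rfl
          · exact absurd (LB hv) hxB
          · rfl

open Classical in
theorem sev : SevStmt := by
  intro V _ _ E hE hcard
  obtain ⟨E', hE'E, hE'ne, h3⟩ := core3 E hE hcard
  have hE' : ∀ e ∈ E', ¬ e.IsDiag := fun e he => hE e (hE'E he)
  by_contra hno
  have hno' : ∀ i, i + 1 ≤ Nat.log 2 (Fintype.card V) + 1 →
      ¬ ∃ Z ⊆ E', Z.Nonempty ∧ (∀ x, Even (dJ Z x)) ∧ Z.card ≤ 2 * (i + 1) := by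
    rintro i hi ⟨Z, hZ, h1, h2, h4⟩
    exact hno ⟨Z, hZ.trans hE'E, h1, h2, by omega⟩
  obtain ⟨e0, he0⟩ := hE'ne
  obtain ⟨r, hr⟩ : ∃ r, r ∈ e0 := by
    induction e0 using Sym2.ind with
    | _ a b => exact ⟨a, Sym2.mem_mk_left a b⟩
  have hall : ∀ i, i ≤ Nat.log 2 (Fintype.card V) + 1 → ∃ B L, Lv E' r i B L := by
    intro i
    induction i with
    | zero =>
      intro _
      refine ⟨{r}, {r}, subset_rfl, ?_, ?_, ?_⟩
      · simp
      · intro v hv
        rw [Finset.mem_singleton.1 hv]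
        exact h3 r (dJ_pos.2 ⟨e0, he0, hr⟩)
      · intro w hw
        rw [Finset.mem_singleton.1 hw]
        refine ⟨∅, Finset.empty_subset _, by simp, ?_, ?_, ?_⟩
        · intro v
          rw [dJ_empty]
          simp
        · intro e he
          simp at he
        · intro e he
          simp at he
    | succ i ih =>
      intro hi
      obtain ⟨B, L, h⟩ := ih (by omega)
      exact lv_step hE' h3 (hno' i hi) h
  obtain ⟨B, L, h⟩ := hall (Nat.log 2 (Fintype.card V) + 1) le_rfl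
  have h1 := h.big
  have h2 : L.card ≤ Fintype.card V := Finset.card_le_univ L
  have h4 : Fintype.card V < 2 ^ (Nat.log 2 (Fintype.card V) + 1) :=
    Nat.lt_pow_succ_log_self (by norm_num) _
  omega

end Pool.Agent.EQB.H89
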