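import Pool.Agent.EQB.Stmts

open Finset SimpleGraph Pool.Agent.Helper51_Equitable

namespace Pool.Agent.EQB.H89

open Classical in
theorem walk_join {V : Type} [Fintype V] (F : SimpleGraph V) {u v : V} (p : F.Walk u v) :
    ∃ P ⊆ edges F, ∀ w, Odd (dJ P w) ↔ (w = u ↔ w ≠ v) := by
  induction p with
  | nil =>
    refine ⟨∅, Finset.empty_subset _, fun w => ?_⟩
    rw [dJ_empty]
    simp
  | @cons u x v h p ih =>
    obtain ⟨P, hP, hw⟩ := ih
    refine ⟨symmDiff {s(u, x)} P, ?_, fun w => ?_⟩
    · intro e he
      rw [Finset.mem_symmDiff] at he
      rcases he with ⟨he, _⟩ | ⟨he, _⟩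
      · rw [Finset.mem_singleton.1 he]
        exact mem_edges.2 h
      · exact hP he
    · have hux : u ≠ x := h.ne
      have hs : Odd (dJ {s(u, x)} w) ↔ (w = u ∨ w = x) := by
        rw [dJ_singleton]
        by_cases hm : w ∈ s(u, x)
        · rw [if_pos hm]
          exact ⟨fun _ => Sym2.mem_iff.1 hm, fun _ => odd_one⟩
        · rw [if_neg hm]
          exact ⟨fun h => absurd h (by decide), fun h => absurd (Sym2.mem_iff.2 h) hm⟩
      rw [dJ_symmDiff, hw w, hs]
      by_cases h1 : w = u
      · subst h1
        have : ¬ (w = x) := hux
        simp [this]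
      · by_cases h2 : w = x
        · subst h2
          simp [h1]
        · simp [h1, h2]

open Classical in
theorem tjn : TjnStmt := by
  intro V _ F T
  induction hn : T.card using Nat.strong_induction_on generalizing T with
  | _ n ih =>
    intro hT
    by_cases h0 : T = ∅
    · subst h0
      refine ⟨∅, Finset.empty_subset _, fun v => ?_⟩
      rw [dJ_empty]
      simp
    · obtain ⟨v, hv⟩ := Finset.nonempty_iff_ne_empty.2 h0
      have hmem : v ∈ inC F T v := mem_inC.2 ⟨hv, Reachable.refl v⟩
      have hc : 1 < (inC F T v).card := by
        have h1 : 0 < (inC F T v).card := Finset.card_pos.2 ⟨v, hmem⟩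
        have h2 := hT v
        rcases h2 with ⟨k, hk⟩
        omega
      obtain ⟨v', hv', hne⟩ := Finset.exists_mem_ne hc v
      obtain ⟨hv'T, hreach⟩ := mem_inC.1 hv'
      obtain ⟨p⟩ := hreach
      obtain ⟨P, hP, hPw⟩ := walk_join F p
      have hcard : ((T.erase v).erase v').card < n := by
        rw [← hn]
        calc ((T.erase v).erase v').card ≤ (T.erase v).card := Finset.card_erase_le
          _ < T.card := Finset.card_erase_lt_of_mem hv
      have heven : ∀ r, Even (inC F ((T.erase v).erase v') r).card := by
        intro r
        have hT' := hT r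
        by_cases hr : F.Reachable r v
        · have hr' : F.Reachable r v' := hr.trans ⟨p⟩
          have hEq : inC F T r = insert v (insert v' (inC F ((T.erase v).erase v') r)) := by
            ext w
            simp only [mem_inC, Finset.mem_insert, Finset.mem_erase]
            constructor
            · rintro ⟨h1, h2⟩
              by_cases hwv : w = v
              · exact Or.inl hwv
              · by_cases hwv' : w = v'
                · exact Or.inr (Or.inl hwv')
                · exact Or.inr (Or.inr ⟨⟨hwv', hwv, h1⟩, h2⟩)
            · rintro (rfl | rfl | ⟨⟨_, _, h1⟩, h2⟩)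
              · exact ⟨hv, hr⟩
              · exact ⟨hv'T, hr'⟩
              · exact ⟨h1, h2⟩
          have h1 : v' ∉ inC F ((T.erase v).erase v') r := by
            simp [mem_inC]
          have h2 : v ∉ insert v' (inC F ((T.erase v).erase v') r) := by
            simp [mem_inC, Ne.symm hne]
          rw [hEq, Finset.card_insert_of_notMem h2, Finset.card_insert_of_notMem h1] at hT'
          rcases hT' with ⟨k, hk⟩
          exact ⟨k - 1, by omega⟩
        · have hr' : ¬ F.Reachable r v' := fun h => hr (h.trans ⟨p.reverse⟩)
          have hEq : inC F T r = inC F ((T.erase v).erase v') r := by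
            ext w
            simp only [mem_inC, Finset.mem_erase]
            constructor
            · rintro ⟨h1, h2⟩
              refine ⟨⟨?_, ?_, h1⟩, h2⟩
              · rintro rfl
                exact hr' h2
              · rintro rfl
                exact hr h2
            · rintro ⟨⟨_, _, h1⟩, h2⟩
              exact ⟨h1, h2⟩
          rw [← hEq]
          exact hT'
      obtain ⟨J', hJ', hJw⟩ := ih _ hcard _ rfl heven
      refine ⟨symmDiff J' P, ?_, fun w => ?_⟩
      · intro e he
        rw [Finset.mem_symmDiff] at he
        rcases he with ⟨he, _⟩ | ⟨he, _⟩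
        · exact hJ' he
        · exact hP he
      · rw [dJ_symmDiff, hJw w, hPw w, Finset.mem_erase, Finset.mem_erase]
        by_cases h1 : w = v
        · subst h1
          simp [Ne.symm hne, hv]
        · by_cases h2 : w = v'
          · subst h2
            simp [h1, hv'T]
          · simp [h1, h2]

end Pool.Agent.EQB.H89
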